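import Mathlib
import Pool.Agent.H26.Boom

set_option autoImplicit false

namespace Pool.Agent.Results.MP_d9b86d_al.NoIRS

open Filter Topology MeasureTheory

section defs
variable {Γ : Type} [Group Γ]

open Classical in
/-- the characteristic function of a subgroup -/
noncomputable def chi (H : Subgroup Γ) : Γ → Bool := fun g => decide (g ∈ H)

/-- `Sub(Γ)` as a subspace of `{0,1}^Γ` with the product topology -/
noncomputable instance topSub : TopologicalSpace (Subgroup Γ) := .induced chi inferInstance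

/-- the Borel σ-algebra on `Sub(Γ)` -/
noncomputable instance measSub : MeasurableSpace (Subgroup Γ) := borel _

/-- `γ H γ⁻¹` -/
def conj (γ : Γ) (H : Subgroup Γ) : Subgroup Γ := H.map (MulAut.conj γ).toMonoidHom

def Boomerang (H : Subgroup Γ) : Prop :=
  ∀ γ : Γ, ∃ n : ℕ → ℕ, Tendsto n atTop atTop ∧
    Tendsto (fun k => conj (γ ^ n k) H) atTop (𝓝 H)

def IsIRS (μ : Measure (Subgroup Γ)) : Prop :=
  IsProbabilityMeasure μ ∧ ∀ γ : Γ, μ.map (conj γ) = μ

instance : BorelSpace (Subgroup Γ) := ⟨rfl⟩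

theorem mem_conj (γ g : Γ) (H : Subgroup Γ) : g ∈ conj γ H ↔ γ⁻¹ * g * γ ∈ H := by
  rw [conj, Subgroup.mem_map_equiv]; simp

theorem cont_chi (g : Γ) : Continuous fun H : Subgroup Γ => chi H g :=
  (continuous_apply g).comp (continuous_induced_dom (f := chi))

theorem cont_conj (γ : Γ) : Continuous (conj γ) :=
  continuous_induced_rng.mpr (continuous_pi fun g => (cont_chi (γ⁻¹ * g * γ)).congr fun H => by
    simp [chi, mem_conj])

open Classical in
noncomputable def U (a b : Γ) (H : Subgroup Γ) : ℝ := if a ∉ H ∧ b ∈ H then 1 else 0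

theorem cont_U (a b : Γ) : Continuous (U a b) :=
  ((continuous_of_discreteTopology (f := fun p : Bool × Bool =>
    if p.1 = false ∧ p.2 = true then (1 : ℝ) else 0)).comp
    ((cont_chi a).prodMk (cont_chi b))).congr fun H => by
    by_cases h1 : a ∈ H <;> by_cases h2 : b ∈ H <;> simp [chi, U, h1, h2]

theorem noIRS {κ : Type} [Fintype κ] (a b g h : κ → Γ) (H : Subgroup Γ)
    (hH : ∀ γ, 1 ≤ ∑ k, (U (a k) (b k) (conj (g k) (conj γ H)) -
      U (a k) (b k) (conj (h k) (conj γ H)))) :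
    ¬ ∃ μ, IsIRS μ ∧ μ (closure (Set.range fun γ => conj γ H)) = 1 := by
  rintro ⟨μ, ⟨i, hμ⟩, h1⟩
  have int : ∀ a b γ : Γ, Integrable (fun L => U a b (conj γ L)) μ := fun a b γ =>
    Integrable.of_bound ((cont_U a b).comp (cont_conj γ)).aestronglyMeasurable 1
      (Eventually.of_forall fun L => by unfold U; split_ifs <;> simp)
  have inv : ∀ a b γ : Γ, ∫ L, U a b (conj γ L) ∂μ = ∫ L, U a b L ∂μ := fun a b γ => by
    rw [← integral_map (cont_conj γ).measurable.aemeasurable (cont_U a b).aestronglyMeasurable,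
      hμ]
  have c : Continuous fun L => ∑ k, (U (a k) (b k) (conj (g k) L) -
      U (a k) (b k) (conj (h k) L)) := continuous_finset_sum _ fun k _ =>
    ((cont_U _ _).comp (cont_conj _)).sub ((cont_U _ _).comp (cont_conj _))
  have ae : ∀ᵐ L ∂μ, L ∈ closure (Set.range fun γ => conj γ H) :=
    (prob_compl_eq_zero_iff isClosed_closure.measurableSet).mpr h1
  have := integral_mono_ae (μ := μ) (integrable_const (1 : ℝ))
    (integrable_finset_sum Finset.univ fun k _ => (int (a k) (b k) (g k)).sub (int (a k) (b k) (h k)))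
    (ae.mono fun L hL => closure_minimal (by rintro _ ⟨γ, rfl⟩; exact hH γ)
      (isClosed_le continuous_const c) hL)
  rw [integral_finset_sum _ fun k _ => (int _ _ _).sub (int _ _ _)] at this
  simp only [Pi.sub_apply, integral_sub (int _ _ _) (int _ _ _), inv] at this
  norm_num at this

end defs

open Pool.Agent.H26.Boom
open FreeGroup hiding map_one map_mul map_inv

abbrev Ω := G × ZMod 5 × ZMod 2

def lab (t : Bool × Bool) : ℕ := (if t.1 then 2 else 0) + (if t.2 then 2 else 1)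

def q : Equiv.Perm Ω where
  toFun w := ((if w.2.1 = 4 then of false else 1) * w.1, w.2.1 + 1, w.2.2)
  invFun w := ((if w.2.1 = 0 then (of false)⁻¹ else 1) * w.1, w.2.1 - 1, w.2.2)
  left_inv := by
    rintro ⟨y, j, e⟩
    have : j + 1 = 0 ↔ j = 4 := by revert j; decide
    simp only [this, add_sub_cancel_right]
    split_ifs <;> simp
  right_inv := by
    rintro ⟨y, j, e⟩
    have : j - 1 = 4 ↔ j = 0 := by revert j; decide
    simp only [this, sub_add_cancel]
    split_ifs <;> simp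

def p (D : G → Bool × Bool) : Equiv.Perm Ω where
  toFun w := ((if w.2.1 = 0 then of true else 1) * w.1, w.2.1,
    w.2.2 + if w.2.1 = 0 ∨ (lab (D w.1) : ZMod 5) = w.2.1 then 0 else 1)
  invFun w := ((if w.2.1 = 0 then (of true)⁻¹ else 1) * w.1, w.2.1,
    w.2.2 + if w.2.1 = 0 ∨ (lab (D w.1) : ZMod 5) = w.2.1 then 0 else 1)
  left_inv := by
    rintro ⟨y, j, e⟩
    by_cases h : j = 0 <;> simp [h, add_assoc, CharTwo.add_self_eq_zero]
  right_inv := by
    rintro ⟨y, j, e⟩
    by_cases h : j = 0 <;> simp [h, add_assoc, CharTwo.add_self_eq_zero]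

def Loc (D : G → Bool × Bool) (σ : Equiv.Perm Ω) : Prop :=
  ∃ (R : ℕ) (s : ZMod 5), ∀ j, ∃ α, nm α ≤ R ∧ ∀ y, ∃ δ, ∀ y' e,
    (∀ b, nm b ≤ R → D (b * y') = D (b * y)) → σ (y', j, e) = (α * y', j + s, e + δ)

theorem Loc.mul {D : G → Bool × Bool} {σ τ : Equiv.Perm Ω} (h1 : Loc D σ) (h2 : Loc D τ) :
    Loc D (σ * τ) := by
  obtain ⟨R, s, h1⟩ := h1
  obtain ⟨R', s', h2⟩ := h2
  refine ⟨R + R', s' + s, fun j => ?_⟩
  obtain ⟨α', a', h2⟩ := h2 j
  obtain ⟨α, a, h1⟩ := h1 (j + s')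
  refine ⟨α * α', (nm_mul _ _).trans (add_le_add a a'), fun y => ?_⟩
  obtain ⟨δ', h2⟩ := h2 y
  obtain ⟨δ, h1⟩ := h1 (α' * y)
  refine ⟨δ' + δ, fun y' e h => ?_⟩
  rw [Equiv.Perm.mul_apply, h2 y' e fun b hb => h b (by omega), h1 _ _ fun b hb => ?_]
  · simp only [mul_assoc, add_assoc]
  · rw [← mul_assoc, ← mul_assoc, h _ ((nm_mul _ _).trans (add_le_add hb a'))]

theorem loc_one (D : G → Bool × Bool) : Loc D 1 :=
  ⟨0, 0, fun j => ⟨1, le_rfl, fun y => ⟨0, fun y' e _ => by simp⟩⟩⟩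

theorem nm_ite (c : Prop) [Decidable c] (i : Bool) :
    nm (if c then of i else 1) ≤ 1 ∧ nm (if c then (of i)⁻¹ else 1) ≤ 1 := by
  split_ifs <;> simp [nm]

theorem loc_gen (D : G → Bool × Bool) :
    Loc D q ∧ Loc D q⁻¹ ∧ Loc D (p D) ∧ Loc D (p D)⁻¹ := by
  refine ⟨⟨1, 1, fun j => ⟨_, (nm_ite (j = 4) false).1, fun y => ⟨0, fun y' e _ => ?_⟩⟩⟩,
    ⟨1, -1, fun j => ⟨_, (nm_ite (j = 0) false).2, fun y => ⟨0, fun y' e _ => ?_⟩⟩⟩,
    ⟨1, 0, fun j => ⟨_, (nm_ite (j = 0) true).1, fun y =>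
      ⟨if j = 0 ∨ (lab (D y) : ZMod 5) = j then 0 else 1, fun y' e h => ?_⟩⟩⟩,
    ⟨1, 0, fun j => ⟨_, (nm_ite (j = 0) true).2, fun y =>
      ⟨if j = 0 ∨ (lab (D y) : ZMod 5) = j then 0 else 1, fun y' e h => ?_⟩⟩⟩⟩
  · rw [add_zero]; rfl
  · rw [add_zero, ← sub_eq_add_neg]; rfl
  all_goals
    have := h 1 (by simp [nm])
    rw [one_mul, one_mul] at this
    rw [add_zero, ← this]; rfl

theorem qa (y : G) (e : ZMod 2) : q (y, 0, e) = (y, 1, e) ∧ q (y, 1, e) = (y, 2, e) ∧
    q (y, 2, e) = (y, 3, e) ∧ q (y, 3, e) = (y, 4, e) ∧ q (y, 4, e) = (of false * y, 0, e) :=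
  ⟨Prod.ext (one_mul y) rfl, Prod.ext (one_mul y) rfl, Prod.ext (one_mul y) rfl,
    Prod.ext (one_mul y) rfl, rfl⟩

theorem q_pow (y : G) (e : ZMod 2) (t : Bool × Bool) :
    (q ^ lab t) (y, 0, e) = (y, (lab t : ZMod 5), e) := by
  obtain ⟨_ | _, _ | _⟩ := t <;>
    simp only [lab, pow_succ', pow_zero, Equiv.Perm.mul_apply, Equiv.Perm.one_apply,
      if_true, if_false, Nat.reduceAdd, qa, Bool.false_eq_true] <;> rfl

theorem q5 (y : G) (j : ZMod 5) (e : ZMod 2) : (q ^ 5) (y, j, e) = (of false * y, j, e) := by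
  have : j = 0 ∨ j = 1 ∨ j = 2 ∨ j = 3 ∨ j = 4 := by revert j; decide
  rcases this with rfl | rfl | rfl | rfl | rfl <;>
    simp only [pow_succ', pow_zero, Equiv.Perm.mul_apply, Equiv.Perm.one_apply, qa]

theorem lt_inv (i : Bool) : of i * lt (i, false) = 1 := mul_inv_cancel (of i)

theorem tt : of true * of true ≠ (1 : G) := fun h => by
  have := congrArg FreeGroup.norm h
  rw [← pow_two, norm_of_pow] at this
  simp at this

theorem labs : ∀ s t : Bool × Bool, (lab t : ZMod 5) ≠ 0 ∧ ((lab s : ZMod 5) = lab t ↔ s = t) := by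
  decide

theorem cnt : ∀ j : ZMod 5,
    1 ≤ (Finset.univ.filter fun i : Fin 5 => j + (i.1 : ZMod 5) = 0).card := by decide

/-- For every free group of rank at least two there is an infinite boomerang subgroup whose orbit
closure supports no invariant random subgroup. -/
theorem result (ι : Type) [Nontrivial ι] : ∃ Δ : Subgroup (FreeGroup ι), Infinite Δ ∧
    Boomerang Δ ∧ ¬ ∃ μ, IsIRS μ ∧ μ (closure (Set.range fun γ => conj γ Δ)) = 1 := by
  classical
  obtain ⟨D, hD, hrec⟩ := limit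
  obtain ⟨i0, i1, hi⟩ := exists_pair_ne ι
  let ρ : FreeGroup ι →* Equiv.Perm Ω :=
    lift fun i => if i = i0 then p D else if i = i1 then q else 1
  have r0 : ρ (of i0) = p D := by simp [ρ]
  have r1 : ρ (of i1) = q := by simp [ρ, hi.symm]
  have loc : ∀ g, Loc D (ρ g) := by
    intro g
    induction g using FreeGroup.induction_on with
    | C1 => rw [map_one]; exact loc_one D
    | of i =>
      simp only [ρ, lift_apply_of]
      split_ifs
      exacts [(loc_gen D).2.2.1, (loc_gen D).1, loc_one D]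
    | inv_of i _ =>
      simp only [ρ, map_inv, lift_apply_of]
      split_ifs
      exacts [(loc_gen D).2.2.2, (loc_gen D).2.1, loc_one D]
    | mul x y hx hy => rw [map_mul]; exact hx.mul hy
  let St : Ω → Subgroup (FreeGroup ι) := fun w => (MulAction.stabilizer _ w).comap ρ
  have mS : ∀ g w, g ∈ St w ↔ ρ g w = w := fun _ _ => Iff.rfl
  have cS : ∀ γ w, conj γ (St w) = St (ρ γ w) := by
    intro γ w
    ext g
    rw [mem_conj, mS, mS, map_mul, map_mul, map_inv, Equiv.Perm.mul_apply, Equiv.Perm.mul_apply,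
      Equiv.Perm.inv_eq_iff_eq]
  have p2 : ∀ w : Ω, of i0 ^ 2 ∈ St w ↔ w.2.1 ≠ 0 := by
    rintro ⟨y, j, e⟩
    rw [mS, map_pow, r0, pow_two, Equiv.Perm.mul_apply]
    by_cases h : j = 0
    · simp [p, h, ← mul_assoc, tt]
    · simp [p, h, add_assoc, CharTwo.add_self_eq_zero]
  refine ⟨St (1, 1, 0), ?_, fun γ => ?_, ?_⟩
  · refine Infinite.of_injective (fun n : ℕ => (⟨(of i0 ^ 2) ^ n,
      pow_mem ((p2 _).mpr (labs (false, false) (false, false)).1) n⟩ : St (1, 1, 0))) fun a b e => ?_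
    have := congrArg (fun x : St (1, 1, 0) => FreeGroup.norm x.1) e
    simp only [← pow_mul, norm_of_pow] at this
    omega
  · obtain ⟨_, s, h⟩ := loc γ
    have sh : ∀ (n : ℕ) w, (ρ (γ ^ n) w).2.1 = w.2.1 + n * s := by
      intro n
      induction n with
      | zero => simp
      | succ n ih =>
        rintro ⟨y, j, e⟩
        obtain ⟨α, -, h⟩ := h j
        obtain ⟨δ, h⟩ := h y
        rw [pow_succ, map_mul, Equiv.Perm.mul_apply, ih, h y e fun _ _ => rfl]
        push_cast; ring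
    obtain ⟨_, s', h'⟩ := loc (γ ^ 5)
    obtain ⟨α, -, h'⟩ := h' 1
    have tp : ∀ n, ∃ e, ρ (γ ^ (5 * n)) (1, 1, 0) = (α ^ n, 1, e) := by
      intro n
      induction n with
      | zero => exact ⟨0, by simp⟩
      | succ n ih =>
        obtain ⟨e, ih⟩ := ih
        obtain ⟨δ, h'⟩ := h' (α ^ n)
        have e1 := h' _ e fun _ _ => rfl
        have e2 := sh 5 (α ^ n, 1, e)
        rw [e1, show ((5 : ℕ) : ZMod 5) = 0 from rfl, zero_mul, add_zero] at e2
        refine ⟨e + δ, ?_⟩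
        rw [Nat.mul_succ, add_comm, pow_add, map_mul, Equiv.Perm.mul_apply, ih, e1, pow_succ']
        exact Prod.ext rfl (Prod.ext e2 rfl)
    choose n hn hr using hrec α
    refine ⟨fun k => 5 * n k, tendsto_atTop_mono (fun k => by have := hn k; simp; omega) tendsto_id,
      ?_⟩
    rw [nhds_induced, tendsto_comap_iff, tendsto_pi_nhds]
    intro g
    obtain ⟨R, s, h⟩ := loc g
    obtain ⟨β, -, h⟩ := h 1
    obtain ⟨δ, h⟩ := h 1
    refine tendsto_const_nhds.congr' ((eventually_ge_atTop R).mono fun k hk => ?_)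
    obtain ⟨e, he⟩ := tp (n k)
    simp only [Function.comp, chi, cS, mS, he, h 1 0 fun _ _ => rfl,
      h (α ^ n k) e fun b hb => by rw [mul_one, hr k b (hb.trans hk)]]
    simp
  · let gg : Bool × Bool → FreeGroup ι := fun t =>
      (if t.1 then of i0 else of i1 ^ 5) ^ (if t.2 then 1 else -1 : ℤ)
    have g0 : ∀ t y e, ρ (gg t) (y, 0, e) = (lt t * y, 0, e) := by
      rintro ⟨_ | _, _ | _⟩ y e
      · simp only [gg, Bool.false_eq_true, if_false, zpow_neg_one, map_inv, map_pow, r1]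
        rw [Equiv.Perm.inv_eq_iff_eq, q5, ← mul_assoc]
        exact Prod.ext (by rw [lt_inv, one_mul]) rfl
      · simp only [gg, Bool.false_eq_true, if_false, if_true, zpow_one, map_pow, r1, q5]; rfl
      · simp only [gg, Bool.false_eq_true, if_false, if_true, zpow_neg_one, map_inv, r0]
        rw [Equiv.Perm.inv_eq_iff_eq]
        simp [p, ← mul_assoc, lt_inv]
      · simp [gg, r0, p]; rfl
    have g1 : ∀ t w, (ρ (gg t) w).2.1 = w.2.1 := by
      rintro ⟨_ | _, _ | _⟩ ⟨y, j, e⟩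
      · simp only [gg, Bool.false_eq_true, if_false, zpow_neg_one, map_inv, map_pow, r1]
        rw [show (q ^ 5)⁻¹ (y, j, e) = ((of false)⁻¹ * y, j, e) by
          rw [Equiv.Perm.inv_eq_iff_eq, q5]; simp]
      · simp only [gg, Bool.false_eq_true, if_false, if_true, zpow_one, map_pow, r1, q5]
      · simp only [gg, Bool.false_eq_true, if_false, if_true, zpow_neg_one, map_inv, r0]; rfl
      · simp only [gg, if_true, zpow_one, r0]; rfl
    let b : Bool × Bool → FreeGroup ι := fun t => (of i1 ^ lab t)⁻¹ * of i0 * of i1 ^ lab t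
    have u0 : ∀ t y e, U (of i0 ^ 2) (b t) (St (y, 0, e)) = if D y = t then 1 else 0 := by
      intro t y e
      simp only [U, p2, b, ← mem_conj, cS, map_pow, r1, q_pow]
      rw [mS, r0]
      simp [p, (labs t t).1, (labs _ t).2]
    have u1 : ∀ t (w : Ω), w.2.1 ≠ 0 → U (of i0 ^ 2) (b t) (St w) = 0 := fun t w h => by
      simp [U, p2, h]
    refine noIRS (κ := Fin 5 × (Bool × Bool)) (fun _ => of i0 ^ 2) (fun k => b k.2)
      (fun k => gg k.2 * of i1 ^ k.1.1) (fun k => of i1 ^ k.1.1) _ fun γ => ?_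
    simp only [cS, map_mul, Equiv.Perm.mul_apply, Fintype.sum_prod_type (α₁ := Fin 5)]
    generalize ρ γ (1, 1, 0) = w
    have T : ∀ w : Ω, (if w.2.1 = 0 then 1 else 0 : ℝ) ≤
        ∑ t, (U (of i0 ^ 2) (b t) (St (ρ (gg t) w)) - U (of i0 ^ 2) (b t) (St w)) := by
      rintro ⟨y, j, e⟩
      by_cases h : j = 0
      · subst h
        have : (2 : ℝ) ≤ (ch D y).card := by exact_mod_cast hD y
        simp only [g0, u0, Finset.sum_sub_distrib, Finset.sum_boole, if_true]
        rw [Finset.filter_eq, if_pos (Finset.mem_univ _), Finset.card_singleton]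
        unfold ch at this
        rw [Nat.cast_one]
        linarith
      · rw [if_neg h]
        exact (Finset.sum_eq_zero fun t _ => by
          rw [u1 _ _ (by rwa [g1]), u1 _ _ h, sub_zero]).ge
    refine le_trans ?_ (Finset.sum_le_sum fun i _ => T _)
    have : ∀ (n : ℕ) w, (ρ (of i1 ^ n) w).2.1 = w.2.1 + n := by
      intro n w
      induction n with
      | zero => simp
      | succ n ih =>
        rw [pow_succ', map_mul, Equiv.Perm.mul_apply, r1, Nat.cast_succ, ← add_assoc, ← ih]; rfl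
    simp only [this, Finset.sum_boole]
    exact_mod_cast cnt w.2.1

end Pool.Agent.Results.MP_d9b86d_al.NoIRS
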